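import Pool.Agent.helper55.NK.Spec

namespace Pool.Agent.helper9.NK
open Pool.Agent.NK Finset

theorem TOP_r1_nonneg (i j w : ℝ) (hi : 2 ≤ i) (hj : 2 ≤ j) (hw : 9 ≤ w) : 0 ≤ r1 i j w := by
  unfold r1
  have h1 : 0 ≤ j * w - 1 := by nlinarith
  have h2 : 0 ≤ i * w + 1 := by nlinarith
  have h3 : 0 ≤ j + 1 := by linarith
  exact div_nonneg (mul_nonneg (by linarith) h1) (mul_nonneg h2 h3)

theorem TOP_r2_nonneg (i j w : ℝ) (hi : 2 ≤ i) (hj : 2 ≤ j) (hw : 9 ≤ w) : 0 ≤ r2 i j w := by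
  unfold r2
  have h1 : 0 ≤ j * w - 1 := by nlinarith
  have h1' : 0 ≤ j * w - 2 := by nlinarith
  have h2 : 0 ≤ i * w + 1 := by nlinarith
  have h2' : 0 ≤ i * w + 2 := by nlinarith
  have h3 : 0 ≤ j + 1 := by linarith
  have h4 : 0 ≤ j + 2 := by linarith
  exact div_nonneg
    (mul_nonneg (mul_nonneg (mul_nonneg (by linarith) (by linarith)) h1) h1')
    (mul_nonneg (mul_nonneg (mul_nonneg h2 h2') h3) h4)

theorem TOP (hUNI : UNI_stmt) (hVAN : VAN_stmt) (hRA1 : RA1_stmt) (hRA2 : RA2_stmt) : TOP_stmt := by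
  intro a b i j hi hj hn
  have htpos : (0 : ℝ) < (i : ℝ) + (j : ℝ) := by
    have h1 : (2 : ℝ) ≤ (i : ℝ) := by exact_mod_cast hi
    have h2 : (2 : ℝ) ≤ (j : ℝ) := by exact_mod_cast hj
    linarith
  have hi2 : (2 : ℝ) ≤ (i : ℝ) := by exact_mod_cast hi
  have hj2 : (2 : ℝ) ≤ (j : ℝ) := by exact_mod_cast hj
  have hnR : 10 * ((i : ℝ) + (j : ℝ)) ≤ (a : ℝ) + (b : ℝ) + 1 := by exact_mod_cast hn
  obtain ⟨w, hw⟩ : ∃ w : ℝ, w = ((a : ℝ) + b + 1) / ((i : ℝ) + j) - 1 := ⟨_, rfl⟩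
  have hwt : (w + 1) * ((i : ℝ) + j) = (a : ℝ) + b + 1 := by
    rw [hw]; field_simp; ring
  have hw9 : 9 ≤ w := by
    rw [hw]
    have : (10 : ℝ) ≤ ((a : ℝ) + b + 1) / ((i : ℝ) + j) := by
      rw [le_div_iff₀ htpos]; linarith
    linarith
  obtain ⟨a0, ha0⟩ : ∃ a0 : ℕ, a0 = i * (a + b + 1) / (i + j) := ⟨_, rfl⟩
  have hda : (i + j) * a0 + (i * (a + b + 1)) % (i + j) = i * (a + b + 1) := by
    rw [ha0]; exact Nat.div_add_mod _ _
  have hmod : (i * (a + b + 1)) % (i + j) < i + j := Nat.mod_lt _ (by omega)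
  have hlo : (i + j) * a0 ≤ i * (a + b + 1) := by omega
  have hhi : i * (a + b + 1) ≤ (i + j) * a0 + (i + j) := by omega
  have hloR : ((i : ℝ) + j) * a0 ≤ i * ((a : ℝ) + b + 1) := by exact_mod_cast hlo
  have hhiR : (i : ℝ) * ((a : ℝ) + b + 1) ≤ ((i : ℝ) + j) * a0 + ((i : ℝ) + j) := by
    exact_mod_cast hhi
  rw [← hwt] at hloR hhiR
  have hA : (a0 : ℝ) ≤ i * (w + 1) := by
    have : ((i : ℝ) + j) * a0 ≤ ((i : ℝ) + j) * (i * (w + 1)) := by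
      calc ((i : ℝ) + j) * a0 ≤ i * ((w + 1) * ((i : ℝ) + j)) := hloR
        _ = ((i : ℝ) + j) * (i * (w + 1)) := by ring
    exact le_of_mul_le_mul_left this htpos
  have hB : (i : ℝ) * (w + 1) ≤ a0 + 1 := by
    have : ((i : ℝ) + j) * (i * (w + 1)) ≤ ((i : ℝ) + j) * (a0 + 1) := by
      calc ((i : ℝ) + j) * (i * (w + 1)) = i * ((w + 1) * ((i : ℝ) + j)) := by ring
        _ ≤ ((i : ℝ) + j) * a0 + ((i : ℝ) + j) := hhiR
        _ = ((i : ℝ) + j) * (a0 + 1) := by ring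
    exact le_of_mul_le_mul_left this htpos
  have ha0le : a0 ≤ a + b := by
    have h1 : (a0 : ℝ) ≤ (a : ℝ) + b := by
      have : (i : ℝ) * (w + 1) + j * (w + 1) = (a : ℝ) + b + 1 := by rw [← hwt]; ring
      have h2 : (1 : ℝ) ≤ j * (w + 1) := by nlinarith
      linarith
    exact_mod_cast h1
  obtain ⟨b0, hb0⟩ : ∃ b0 : ℕ, b0 = a + b - a0 := ⟨_, rfl⟩
  have hab : a0 + b0 = a + b := by omega
  have habR : (a0 : ℝ) + b0 = (a : ℝ) + b := by exact_mod_cast hab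
  have hsum : (i : ℝ) * (w + 1) + j * (w + 1) = (a0 : ℝ) + b0 + 1 := by
    rw [habR, ← hwt]; ring
  have hia : i ≤ a0 := by
    have h1 : (i : ℝ) ≤ a0 := by nlinarith
    exact_mod_cast h1
  have hjb : j ≤ b0 := by
    have h1 : (j : ℝ) ≤ b0 := by nlinarith
    exact_mod_cast h1
  have c1 : (a0 : ℝ) - i ≤ i * w := by linarith
  have c2 : (j : ℝ) * w - 1 ≤ (b0 : ℝ) - j := by linarith
  have c3 : (b0 : ℝ) - j ≤ j * w := by linarith
  have c4 : (i : ℝ) * w - 1 ≤ (a0 : ℝ) - i := by linarith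
  have e1 := hRA1 a0 b0 i j w (by omega) (by omega) hia hjb hw9 c1 c2
  have e2 := hRA1 b0 a0 j i w (by omega) (by omega) hjb hia hw9 c3 c4
  have e3 := hRA2 a0 b0 i j w hi (by omega) hia hjb hw9 c1 c2
  have e4 := hRA2 b0 a0 j i w hj (by omega) hjb hia hw9 c3 c4
  have hV := hVAN a0 b0 i j hi hj
  have hVR : (a0.choose i : ℝ) * (b0.choose j : ℝ) +
      (a0.choose (i - 1) : ℝ) * (b0.choose (j + 1) : ℝ) +
      (a0.choose (i + 1) : ℝ) * (b0.choose (j - 1) : ℝ) +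
      (a0.choose (i - 2) : ℝ) * (b0.choose (j + 2) : ℝ) +
      (a0.choose (i + 2) : ℝ) * (b0.choose (j - 2) : ℝ) ≤ ((a0 + b0).choose (i + j) : ℝ) := by
    exact_mod_cast hV
  have hU := hUNI a b i j (by omega) (by omega) (by omega)
  rw [← ha0, ← hb0] at hU
  have hUR : (a.choose i : ℝ) * (b.choose j : ℝ) ≤ (a0.choose i : ℝ) * (b0.choose j : ℝ) := by
    exact_mod_cast hU
  have q1 := TOP_r1_nonneg i j w hi2 hj2 hw9
  have q2 := TOP_r1_nonneg j i w hj2 hi2 hw9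
  have q3 := TOP_r2_nonneg i j w hi2 hj2 hw9
  have q4 := TOP_r2_nonneg j i w hj2 hi2 hw9
  have hq : 0 ≤ qq i j w := by unfold qq; linarith
  refine ⟨w, hw9, ?_⟩
  rw [← hab]
  calc (a.choose i : ℝ) * (b.choose j : ℝ) * qq i j w
      ≤ (a0.choose i : ℝ) * (b0.choose j : ℝ) * qq i j w := mul_le_mul_of_nonneg_right hUR hq
    _ = (a0.choose i : ℝ) * (b0.choose j : ℝ) +
        r1 i j w * ((a0.choose i : ℝ) * (b0.choose j : ℝ)) +
        r1 j i w * ((b0.choose j : ℝ) * (a0.choose i : ℝ)) +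
        r2 i j w * ((a0.choose i : ℝ) * (b0.choose j : ℝ)) +
        r2 j i w * ((b0.choose j : ℝ) * (a0.choose i : ℝ)) := by unfold qq; ring
    _ ≤ (a0.choose i : ℝ) * (b0.choose j : ℝ) +
      (a0.choose (i - 1) : ℝ) * (b0.choose (j + 1) : ℝ) +
      (b0.choose (j - 1) : ℝ) * (a0.choose (i + 1) : ℝ) +
      (a0.choose (i - 2) : ℝ) * (b0.choose (j + 2) : ℝ) +
      (b0.choose (j - 2) : ℝ) * (a0.choose (i + 2) : ℝ) := by linarith
    _ ≤ ((a0 + b0).choose (i + j) : ℝ) := by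
      have s1 : (b0.choose (j - 1) : ℝ) * (a0.choose (i + 1) : ℝ) =
        (a0.choose (i + 1) : ℝ) * (b0.choose (j - 1) : ℝ) := mul_comm _ _
      have s2 : (b0.choose (j - 2) : ℝ) * (a0.choose (i + 2) : ℝ) =
        (a0.choose (i + 2) : ℝ) * (b0.choose (j - 2) : ℝ) := mul_comm _ _
      rw [s1, s2]; exact hVR

end Pool.Agent.helper9.NK
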